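import Pool.Agent.TH978.S13.Lead
import Pool.Agent.TH147.S13.LineTau
import Pool.Agent.TH470.S13.LeadForm

/-!
# Uniform SHGH for 13 points, STEP 3: the block with its apex is empty
-/

set_option autoImplicit false

namespace Pool.Agent.TH978.S13

open Finset Pool.Agent.TH176.Nag

theorem tau_congr {K : Type*} [Field K] {f g : (ℤ × ℤ) →₀ K} {c : ℤ} (h : ∀ b, f (c, b) = g (c, b))
    (Q : K → K) : tau f c Q = tau g c Q := by
  have h1 := tau_sub_smul f g 1 c Q
  rw [one_mul] at h1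
  rw [← sub_eq_zero, ← h1]
  apply tau_eq_zero
  intro b hb
  exfalso
  apply hb
  rw [Finsupp.sub_apply, Finsupp.smul_apply, h b]
  simp

/-- the block in the coordinates `c = i - j`, `b = i - 1` -/
theorem Emp_BlkB {M m : ℕ} {K D : ℝ} (hK : 0 < K) (hK2 : K ^ 2 = M * K + M) (h0 : (K + 2) * m ≤ D)
    (h1 : D - (K + 2) * m < 1)
    (hdef : ∃ k : ℕ, k < m ∧ ⌊D - (K + 2) * k⌋ + ⌊(D - (K + 2) * k - 1) / (K + 1)⌋ <
      ((M : ℤ) + 4) * ((m : ℤ) - k)) :
    Emp (fun _ : Fin (M + 4) => m) (BlkB K D) := by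
  classical
  obtain ⟨y0, hy0, hy1, hz⟩ := lead_zero hK hK2 h0 h1 hdef
  have htv : tv ℚ ≠ 0 := by
    intro h
    have := congrArg (fun u : LaurentSeries ℚ => u.coeff 1) h
    simp [tv] at this
  have hcst : ∀ a : ℚ, a ≠ 0 → (cst a : LaurentSeries ℚ) ≠ 0 := by
    intro a ha h
    have h2 : (HahnSeries.C : ℚ →+* LaurentSeries ℚ) a = (HahnSeries.C : ℚ →+* LaurentSeries ℚ) 0 := by
      rw [map_zero]; exact h
    exact ha (HahnSeries.C_injective h2)
  have hK1 : 0 < K + 1 := by linarith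
  have hrel : ((M : ℝ) + 3) * (K + 1) = (K + 1) * (K + 2) + 1 := by linarith
  have hD0 : 0 ≤ D := le_trans (by positivity) h0
  refine ⟨LaurentSeries ℚ, inferInstance, inferInstance,
    fun i => if (i : ℕ) < M + 3 then cst (((i : ℕ) : ℚ) + 1) else tv ℚ * cst (1 : ℚ),
    fun i => if (i : ℕ) < M + 3 then 1 else cst y0, ?_, ?_, ?_⟩
  · intro i
    dsimp only
    split_ifs
    · exact hcst _ (by positivity)
    · exact mul_ne_zero htv (hcst _ one_ne_zero)
  · intro i
    dsimp only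
    split_ifs
    · exact one_ne_zero
    · exact hcst _ hy0
  intro f hfS hfL
  by_contra hf
  obtain ⟨g, hg, hgf, hgL, hgh⟩ := lead_form (m := m) (fun i : Fin (M + 3) => ((i : ℕ) : ℚ) + 1) 1 y0 hf
    (by
      intro i
      have := hfL ⟨i, by have := i.2; omega⟩
      simpa [i.2] using this)
    (by
      have := hfL ⟨M + 3, by omega⟩
      simpa using this)
  apply hg
  refine hz g (fun p hp => hfS (hgf hp)) ?_ hgL
  intro c k hk hck
  obtain ⟨h, hhf, hhL, hhc, hhg⟩ := hgh c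
  rw [← tau_congr hhg]
  refine line_tau (fun i : Fin (M + 3) => ((i : ℕ) : ℚ) + 1) ?_ ?_ hhL hhc ?_ (β := D - (K + 2) * k) ?_ ?_
  · intro i j hij
    simp only [add_left_inj, Nat.cast_inj] at hij
    exact Fin.ext hij
  · intro i
    positivity
  · intro p hp
    rcases hfS (hhf hp) with h3 | h3
    · exact h3.2.1
    · rw [Set.mem_singleton_iff] at h3
      rw [h3]; norm_num
  · intro p hp hkp
    rcases hfS (hhf hp) with h3 | h3
    · have h4 := h3.2.2
      have h5 : (k : ℝ) ≤ (p.2 : ℝ) - p.1 + 1 := by exact_mod_cast hkp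
      nlinarith
    · rw [Set.mem_singleton_iff] at h3
      rw [h3] at hkp ⊢
      simp only at hkp
      have hk0 : k = 0 := by omega
      rw [hk0]
      simpa using hD0
  · rw [Fintype.card_fin, Nat.cast_sub hk.le]
    push_cast
    have h6 : (D - (K + 2) * k - c) * (K + 1) < ((M : ℝ) + 3) * (m - k) * (K + 1) := by
      have : ((M : ℝ) + 3) * (m - k) * (K + 1) = (m - k) * (((M : ℝ) + 3) * (K + 1)) := by ring
      rw [this, hrel]
      nlinarith
    exact lt_of_mul_lt_mul_right h6 hK1.le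

/-- **STEP 3**: the block with its apex is empty if some row is deficient -/
theorem step3_blk {M m : ℕ} {K D : ℝ} (hK : 0 < K) (hK2 : K ^ 2 = M * K + M) (h0 : (K + 2) * m ≤ D)
    (h1 : D - (K + 2) * m < 1)
    (hdef : ∃ k : ℕ, k < m ∧ ⌊D - (K + 2) * k⌋ + ⌊(D - (K + 2) * k - 1) / (K + 1)⌋ <
      ((M : ℤ) + 4) * ((m : ℤ) - k)) :
    Emp (fun _ : Fin (M + 4) => m) (Blk K D) := by
  refine (Emp_BlkB hK hK2 h0 h1 hdef).comap 1 (-1) 1 0 0 (-1) (by norm_num) ?_
  rintro ⟨i, j⟩ h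
  rcases h with ⟨h3, h4, h5⟩ | h3
  · simp only at h3 h4 h5
    left
    refine ⟨by simp only; omega, by simp only; omega, ?_⟩
    simp only
    push_cast
    linarith
  · rw [Set.mem_singleton_iff, Prod.mk.injEq] at h3
    right
    rw [Set.mem_singleton_iff, h3.1, h3.2]
    norm_num

end Pool.Agent.TH978.S13
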