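import Pool.Agent.TH978.S13.Anti2
import Pool.Agent.TH864.SX.Thirteen

/-!
# Anticanonical degrees, `r (M + 2)` points of multiplicity `m`: all degrees above or below
-/

set_option autoImplicit false

namespace Pool.Agent.TH978.S13

open Finset Pool.Agent.TH176.Nag Pool.Agent.TH603.Sur Pool.Agent.TH603.Cut Pool.Agent.TH641.NW
  Pool.Agent.TH469.SX Pool.Agent.H932R3

/-- the number of conditions -/
theorem sum_wt (k n h m : ℕ) :
    ∑ i : Fin (k + n), Nat.choose ((if (i : ℕ) < k then h else m) + 1) 2 =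
      k * Nat.choose (h + 1) 2 + n * Nat.choose (m + 1) 2 := by
  rw [Fin.sum_univ_add]
  simp

theorem TZ_mono' {d e : ℕ} (h : d ≤ e) : TZ d ⊆ TZ e := by
  rintro p ⟨h1, h2, h3⟩
  have : (d : ℤ) ≤ e := by exact_mod_cast h
  exact ⟨h1, h2, h3.trans this⟩

/-- **anticanonical degrees, `r (M + 2)` points**: the expected dimension, also below or above -/
theorem expDim_anti4 {M r k : ℕ} (hM : 1 ≤ M) (hr : 1 ≤ r) (hk : k + r * M = 9) (h m : ℕ) :
    ∃ F : MvPolynomial (Fin (k + r * (M + 2)) × Fin 2) ℚ, F ≠ 0 ∧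
      ∀ {L : Type} [Field L] [CharZero L] (P : Fin (k + r * (M + 2)) → Fin 2 → L),
        MvPolynomial.aeval (fun ij : Fin (k + r * (M + 2)) × Fin 2 => P ij.1 ij.2) F ≠ 0 →
        ∀ d : ℕ, ((d ≤ 3 * h ∧ M * h ^ 2 < (M + 2) * m ^ 2) ∨
          (3 * h ≤ d ∧ (M + 2) * Nat.choose (m + 1) 2 < M * Nat.choose (h + 1) 2)) →
        ExpDim L (fun i => if (i : ℕ) < k then h else m) P d := by
  have hC : Nat.choose (3 * h + 2) 2 = 9 * Nat.choose (h + 1) 2 + 1 := by
    have e1 := choose_two_mul (3 * h + 1)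
    have e2 := choose_two_mul h
    have e3 : 3 * h + 1 + 1 = 3 * h + 2 := rfl
    rw [e3] at e1
    nlinarith
  have hsum : Pool.Agent.TH603.Sur.cond (fun i : Fin (k + r * (M + 2)) => if (i : ℕ) < k then h else m) =
      k * Nat.choose (h + 1) 2 + r * (M + 2) * Nat.choose (m + 1) 2 := sum_wt k (r * (M + 2)) h m
  have h9 : 9 * Nat.choose (h + 1) 2 = k * Nat.choose (h + 1) 2 + r * (M * Nat.choose (h + 1) 2) := by
    rw [← hk]; ring
  have hor : ∀ hG : M * h ^ 2 < (M + 2) * m ^ 2 ∨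
      (M + 2) * Nat.choose (m + 1) 2 < M * Nat.choose (h + 1) 2,
      Emp (fun i : Fin (k + r * (M + 2)) => if (i : ℕ) < k then h else m) (TZ (3 * h)) ∨
      Sur (fun i : Fin (k + r * (M + 2)) => if (i : ℕ) < k then h else m) (TZ (3 * h)) := by
    intro hG
    refine dich_anti2 hM hr hk ?_
    rcases hG with hG | hG
    · left
      rw [pow_two, pow_two] at hG
      exact hG
    · right
      rw [← choose_two_mul, ← choose_two_mul]
      nlinarith
  refine expDim_two (w := fun i : Fin (k + r * (M + 2)) => if (i : ℕ) < k then h else m)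
    (A := fun d => d ≤ 3 * h ∧ M * h ^ 2 < (M + 2) * m ^ 2)
    (B := fun d => 3 * h ≤ d ∧ (M + 2) * Nat.choose (m + 1) 2 < M * Nat.choose (h + 1) 2)
    (3 * h) (fun d hd => hd.1) (fun d hd => ?_) (fun d hd => ?_)
  · obtain ⟨hd1, hd2⟩ := hd
    refine ((Pool.Agent.TH864.SX.ED_of_or (hor (Or.inl hd2))).1 ?_).mono (TZ_mono' hd1)
    rw [hsum, hC, h9]
    have h1 : M * h < (M + 2) * m := by
      by_contra hcon
      push Not at hcon
      have := Nat.mul_le_mul hcon hcon
      nlinarith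
    have e1 := choose_two_mul h
    have e2 := choose_two_mul m
    have h2 : M * Nat.choose (h + 1) 2 + 1 ≤ (M + 2) * Nat.choose (m + 1) 2 := by
      nlinarith
    nlinarith
  · obtain ⟨hd1, hd2⟩ := hd
    refine ((Pool.Agent.TH864.SX.ED_of_or (hor (Or.inr hd2))).2 ?_).mono (TZ_mono' hd1)
    rw [hsum, hC, h9]
    nlinarith

end Pool.Agent.TH978.S13
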