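import Pool.Agent.TH469.SX.TwentyOne

/-!
# Anticanonical degrees: `r (M + 4)` points of multiplicity `m` and `9 - r M` points of multiplicity `h`
in degree `3 h`
-/

set_option autoImplicit false

namespace Pool.Agent.TH978.S13

open Finset Pool.Agent.TH176.Nag Pool.Agent.TH603.Sur Pool.Agent.TH603.Cut Pool.Agent.TH641.NW
  Pool.Agent.TH469.SX
open Pool.Agent.TH864.SX (Fb Fa Slp)

/-- the open sector between the rays of slopes `x` and `y` -/
def Sc (x y : ℝ) (h : ℕ) : Set (ℤ × ℤ) :=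
  {p | 0 ≤ p.2 ∧ x * ((h : ℝ) - p.2) < p.1 ∧ (p.1 : ℝ) < y * ((h : ℝ) - p.2)}

theorem Sc_pos {x y : ℝ} (hxy : x < y) {h : ℕ} {p : ℤ × ℤ} (hp : p ∈ Sc x y h) : (0 : ℝ) < (h : ℝ) - p.2 := by
  obtain ⟨-, h2, h3⟩ := hp
  by_contra hneg
  push Not at hneg
  have := mul_le_mul_of_nonpos_right hxy.le hneg
  linarith

theorem Sc_finite {x y : ℝ} (hxy : x < y) (h : ℕ) : (Sc x y h).Finite := by
  refine (Set.toFinite ((Finset.Icc (-((⌈|x|⌉ + ⌈|y|⌉) * (h : ℤ))) ((⌈|x|⌉ + ⌈|y|⌉) * (h : ℤ)) ×ˢ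
    Finset.Icc (0 : ℤ) h : Finset (ℤ × ℤ)) : Set (ℤ × ℤ))).subset ?_
  intro p hp
  have h0 := Sc_pos hxy hp
  obtain ⟨h1, h2, h3⟩ := hp
  have h1R : (0 : ℝ) ≤ p.2 := by exact_mod_cast h1
  have hx := Int.le_ceil |x|
  have hy := Int.le_ceil |y|
  have ax := neg_abs_le x
  have ay := le_abs_self y
  have ax0 := abs_nonneg x
  have ay0 := abs_nonneg y
  have hh : (0 : ℝ) ≤ h := Nat.cast_nonneg _
  rw [mem_coe, Finset.mem_product, Finset.mem_Icc, Finset.mem_Icc]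
  refine ⟨⟨?_, ?_⟩, h1, ?_⟩
  · have : (-((⌈|x|⌉ + ⌈|y|⌉) * (h : ℤ)) : ℝ) ≤ (p.1 : ℝ) := by
      have h4 : -(|x| * h) ≤ x * ((h : ℝ) - p.2) := by
        have h5 : -(|x|) * ((h : ℝ) - p.2) ≤ x * ((h : ℝ) - p.2) := mul_le_mul_of_nonneg_right ax h0.le
        have h6 : |x| * ((h : ℝ) - p.2) ≤ |x| * h := mul_le_mul_of_nonneg_left (by linarith) ax0
        linarith
      have h7 : |x| * h ≤ ((⌈|x|⌉ : ℤ) + (⌈|y|⌉ : ℤ) : ℝ) * h :=
        mul_le_mul_of_nonneg_right (by linarith) hh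
      push_cast
      linarith
    exact_mod_cast this
  · have : (p.1 : ℝ) ≤ ((⌈|x|⌉ + ⌈|y|⌉) * (h : ℤ) : ℝ) := by
      have h4 : y * ((h : ℝ) - p.2) ≤ |y| * h := by
        have h5 : y * ((h : ℝ) - p.2) ≤ |y| * ((h : ℝ) - p.2) := mul_le_mul_of_nonneg_right ay h0.le
        have h6 : |y| * ((h : ℝ) - p.2) ≤ |y| * h := mul_le_mul_of_nonneg_left (by linarith) ay0
        linarith
      have h7 : |y| * h ≤ ((⌈|x|⌉ : ℤ) + (⌈|y|⌉ : ℤ) : ℝ) * h :=
        mul_le_mul_of_nonneg_right (by linarith) hh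
      push_cast
      linarith
    exact_mod_cast this
  · have : (p.2 : ℝ) ≤ (h : ℝ) := by linarith
    exact_mod_cast this

theorem Emp_shift {ι : Type} {w : ι → ℕ} {x y : ℝ} {h : ℕ} (n : ℤ) (hE : Emp w (Sc x y h)) :
    Emp w (Sc (x + n) (y + n) h) := by
  refine hE.comap 1 n 0 1 (-(n * h)) 0 (by norm_num) ?_
  rintro ⟨t, j⟩ ⟨h1, h2, h3⟩
  simp only at h1 h2 h3
  refine ⟨by simp only; omega, ?_, ?_⟩
  · simp only; push_cast; linarith
  · simp only; push_cast; linarith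

theorem Sur_shift {ι : Type} [Fintype ι] {w : ι → ℕ} {x y : ℝ} {h : ℕ} (n : ℤ)
    (hE : Sur w (Sc x y h)) : Sur w (Sc (x + n) (y + n) h) := by
  refine hE.comap 1 n 0 1 (-(n * h)) 0 (by norm_num) ?_
  rintro ⟨t, j⟩ ⟨h1, h2, h3⟩
  simp only at h1 h2 h3
  refine ⟨(t + n * h - n * j, j), ⟨h1, ?_, ?_⟩, ?_⟩
  · simp only; push_cast; linarith
  · simp only; push_cast; linarith
  · ext
    · simp only; ring
    · simp only; ring

/-- adding a sector, emptiness -/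
theorem Emp_add {ι κ : Type} [Finite ι] [Finite κ] {w : ι → ℕ} {v : κ → ℕ} {x y z : ℝ} {h : ℕ}
    (hxy : x < y) (hyz : y < z) (hy : Irrational y)
    (h1 : Emp w (Sc x y h ∪ {((0, (h : ℤ)) : ℤ × ℤ)})) (h2 : Emp v (Sc y z h)) :
    Emp (Sum.elim w v) (Sc x z h ∪ {((0, (h : ℤ)) : ℤ × ℤ)}) := by
  refine (cut_E (S := Sc x y h ∪ {((0, (h : ℤ)) : ℤ × ℤ)}) (T := Sc y z h)
    ((Sc_finite hxy h).union (Set.finite_singleton _)) (Sc_finite hyz h) (-y) ?_ h1 h2).mono ?_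
  · rintro p hp p' ⟨-, g2, -⟩
    rcases hp with ⟨-, -, g3⟩ | hp
    · linarith
    · rw [Set.mem_singleton_iff] at hp
      rw [hp]
      push_cast
      linarith
  · rintro p (hp | hp)
    · have h0 := Sc_pos (hxy.trans hyz) hp
      obtain ⟨g1, g2, g3⟩ := hp
      rcases lt_trichotomy (p.1 : ℝ) (y * ((h : ℝ) - p.2)) with g | g | g
      · exact Or.inl (Or.inl ⟨g1, g2, g⟩)
      · exfalso
        apply hy
        refine ⟨(p.1 : ℚ) / ((h : ℚ) - p.2), ?_⟩
        push_cast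
        rw [div_eq_iff h0.ne']
        exact g
      · exact Or.inr ⟨g1, g, g3⟩
    · exact Or.inl (Or.inr hp)

/-- adding a sector, independence -/
theorem Sur_add {ι κ : Type} [Fintype ι] [Fintype κ] {w : ι → ℕ} {v : κ → ℕ} {x y z : ℝ} {h : ℕ}
    (hxy : x < y) (hyz : y < z) (h1 : Sur w (Sc x y h)) (h2 : Sur v (Sc y z h)) :
    Sur (Sum.elim w v) (Sc x z h) := by
  refine (cut_S (S := Sc x y h) (T := Sc y z h) (-y) ?_ h1 h2).mono ?_
  · rintro p ⟨-, -, g3⟩ p' ⟨-, g2, -⟩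
    linarith
  · rintro p (hp | hp)
    · have h0 := Sc_pos hxy hp
      obtain ⟨g1, g2, g3⟩ := hp
      exact ⟨g1, g2, g3.trans (mul_lt_mul_of_pos_right hyz h0)⟩
    · have h0 := Sc_pos hyz hp
      obtain ⟨g1, g2, g3⟩ := hp
      exact ⟨g1, (mul_lt_mul_of_pos_right hxy h0).trans g2, g3⟩

/-- one point of multiplicity `h` in a sector of width one, emptiness -/
theorem Emp_unit (x : ℝ) (h : ℕ) : Emp (fun _ : Fin 1 => h) (Sc x (x + 1) h) := by
  classical
  refine Emp_of_rows (fun p hp => hp.1) fun k B hB => ?_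
  rw [Finset.sum_const, Finset.card_univ, Fintype.card_fin, one_smul]
  rcases B.eq_empty_or_nonempty with rfl | ⟨b0, hb0⟩
  · simp
  · have h0 := Sc_pos (by linarith) (hB b0 hb0)
    simp only [Int.cast_natCast] at h0
    have hk : k < h := by
      have : (k : ℝ) < h := by linarith
      exact_mod_cast this
    have hsub : B ⊆ Finset.Icc (⌊x * ((h : ℝ) - k)⌋ + 1) (⌊x * ((h : ℝ) - k)⌋ + ((h : ℤ) - k)) := by
      intro t ht
      obtain ⟨-, g2, g3⟩ := hB t ht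
      simp only [Int.cast_natCast] at g2 g3
      rw [Finset.mem_Icc]
      constructor
      · rw [Int.add_one_le_iff, Int.floor_lt]
        exact g2
      · have : t - ((h : ℤ) - k) ≤ ⌊x * ((h : ℝ) - k)⌋ := by
          rw [Int.le_floor]
          push_cast
          linarith
        omega
    have := Finset.card_le_card hsub
    rw [Int.card_Icc] at this
    omega

/-- one point of multiplicity `h` in a sector of width one, independence -/
theorem Sur_unit {x : ℝ} (hx : Irrational x) (h : ℕ) : Sur (fun _ : Fin 1 => h) (Sc x (x + 1) h) := by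
  classical
  refine Sur_slabs' 0 1 0 1 (by norm_num) fun k hk => ?_
  obtain ⟨-, hk⟩ := hk
  refine ⟨(Finset.range (h - k)).image (fun j : ℕ => (j : ℤ)), ?_, ?_⟩
  · rw [Finset.card_image_of_injective _ Nat.cast_injective, Finset.card_range, Finset.sum_const,
      Finset.card_univ, Fintype.card_fin, one_smul]
  · intro c hc
    obtain ⟨j, hj, rfl⟩ := Finset.mem_image.1 hc
    rw [Finset.mem_range] at hj
    have hs0 : (0 : ℝ) < (h : ℝ) - j := by
      have : (j : ℝ) < h := by exact_mod_cast (show j < h by omega)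
      linarith
    have hfl : ((⌊x * ((h : ℝ) - j)⌋ : ℤ) : ℝ) < x * ((h : ℝ) - j) := by
      refine lt_of_le_of_ne (Int.floor_le _) fun he => hx ?_
      refine ⟨(⌊x * ((h : ℝ) - j)⌋ : ℚ) / ((h : ℚ) - j), ?_⟩
      push_cast
      rw [div_eq_iff hs0.ne']
      exact he
    have hfl2 := Int.lt_floor_add_one (x * ((h : ℝ) - j))
    refine ⟨-(⌊x * ((h : ℝ) - j)⌋ + ((h : ℤ) - j)), fun s hs1 hs2 => ?_⟩
    have e : ((0 * (j : ℤ) - 1 * s, 1 * (j : ℤ) + 0 * s) : ℤ × ℤ) = (-s, (j : ℤ)) := by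
      ext
      · simp only; ring
      · simp only; ring
    rw [e]
    refine ⟨by simp, ?_, ?_⟩
    · have h1 : ⌊x * ((h : ℝ) - j)⌋ + 1 ≤ -s := by omega
      have h2 : ((⌊x * ((h : ℝ) - j)⌋ : ℤ) : ℝ) + 1 ≤ ((-s : ℤ) : ℝ) := by exact_mod_cast h1
      simp only [Int.cast_natCast]
      linarith
    · have h1 : -s ≤ ⌊x * ((h : ℝ) - j)⌋ + ((h : ℤ) - j) := by omega
      have h2 : ((-s : ℤ) : ℝ) ≤ ((⌊x * ((h : ℝ) - j)⌋ : ℤ) : ℝ) + ((h : ℝ) - j) := by exact_mod_cast h1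
      simp only [Int.cast_natCast]
      linarith

/-- reindexing independence -/
theorem Sur_equiv {ι κ : Type} [Fintype ι] [Fintype κ] {w : ι → ℕ} {v : κ → ℕ} {S : Set (ℤ × ℤ)}
    (e : ι ≃ κ) (hw : ∀ i, w i = v (e i)) (h : Sur w S) : Sur v S := by
  obtain ⟨T, h1, h2, h3⟩ := h
  refine ⟨T, h1, ?_, Emp_emb (g := e) e.injective (fun i => (hw i).le) h3⟩
  rw [h2]
  unfold Pool.Agent.TH603.Sur.cond
  rw [← Equiv.sum_comp e]
  exact Finset.sum_congr rfl fun i _ => by rw [hw i]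

theorem Emp_equiv {ι κ : Type} {w : ι → ℕ} {v : κ → ℕ} {S : Set (ℤ × ℤ)}
    (e : ι ≃ κ) (hw : ∀ i, w i = v (e i)) (h : Emp w S) : Emp v S :=
  Emp_emb (g := e) e.injective (fun i => (hw i).le) h

/-- `r` blocks, emptiness -/
theorem Emp_blocks {b m h M : ℕ} {x : ℝ} (hM : 1 ≤ M) (hx : Irrational x)
    (hE : Emp (fun _ : Fin b => m) (Sc x (x + M) h ∪ {((0, (h : ℤ)) : ℤ × ℤ)})) (r : ℕ) :
    Emp (fun _ : Fin ((r + 1) * b) => m)
      (Sc x (x + ((r + 1) * M : ℕ)) h ∪ {((0, (h : ℤ)) : ℤ × ℤ)}) := by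
  have hMR : (1 : ℝ) ≤ M := by exact_mod_cast hM
  induction r with
  | zero =>
    have e1 : x + (((0 + 1) * M : ℕ) : ℝ) = x + M := by push_cast; ring
    rw [e1]
    exact Emp_equiv (finCongr (by ring)) (fun _ => rfl) hE
  | succ r ih =>
    have h2 : Emp (fun _ : Fin b => m) (Sc (x + (((r + 1) * M : ℕ) : ℤ)) (x + M + (((r + 1) * M : ℕ) : ℤ)) h) :=
      Emp_shift _ (hE.mono Set.subset_union_left)
    have e1 : x + (((r + 1 + 1) * M : ℕ) : ℝ) = x + M + ((((r + 1) * M : ℕ) : ℤ) : ℝ) := by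
      push_cast; ring
    have e2 : x + (((r + 1) * M : ℕ) : ℝ) = x + ((((r + 1) * M : ℕ) : ℤ) : ℝ) := by
      push_cast; ring
    rw [e1]
    rw [e2] at ih
    have h0 : (0 : ℝ) < ((((r + 1) * M : ℕ) : ℤ) : ℝ) := by
      have : 0 < (r + 1) * M := by positivity
      exact_mod_cast this
    have key := Emp_add (x := x) (y := x + ((((r + 1) * M : ℕ) : ℤ) : ℝ))
      (z := x + M + ((((r + 1) * M : ℕ) : ℤ) : ℝ)) (by linarith) (by linarith) (hx.add_intCast _) ih h2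
    refine Emp_equiv (finSumFinEquiv.trans (finCongr (by ring))) ?_ key
    rintro (i | i) <;> rfl

/-- `r` blocks, independence -/
theorem Sur_blocks {b m h M : ℕ} {x : ℝ} (hM : 1 ≤ M)
    (hE : Sur (fun _ : Fin b => m) (Sc x (x + M) h)) (r : ℕ) :
    Sur (fun _ : Fin ((r + 1) * b) => m) (Sc x (x + ((r + 1) * M : ℕ)) h) := by
  have hMR : (1 : ℝ) ≤ M := by exact_mod_cast hM
  induction r with
  | zero =>
    have e1 : x + (((0 + 1) * M : ℕ) : ℝ) = x + M := by push_cast; ring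
    rw [e1]
    exact Sur_equiv (finCongr (by ring)) (fun _ => rfl) hE
  | succ r ih =>
    have h2 : Sur (fun _ : Fin b => m) (Sc (x + (((r + 1) * M : ℕ) : ℤ)) (x + M + (((r + 1) * M : ℕ) : ℤ)) h) :=
      Sur_shift _ hE
    have e1 : x + (((r + 1 + 1) * M : ℕ) : ℝ) = x + M + ((((r + 1) * M : ℕ) : ℤ) : ℝ) := by
      push_cast; ring
    have e2 : x + (((r + 1) * M : ℕ) : ℝ) = x + ((((r + 1) * M : ℕ) : ℤ) : ℝ) := by
      push_cast; ring
    rw [e1]
    rw [e2] at ih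
    have h0 : (0 : ℝ) < ((((r + 1) * M : ℕ) : ℤ) : ℝ) := by
      have : 0 < (r + 1) * M := by positivity
      exact_mod_cast this
    have key := Sur_add (x := x) (y := x + ((((r + 1) * M : ℕ) : ℤ) : ℝ))
      (z := x + M + ((((r + 1) * M : ℕ) : ℤ) : ℝ)) (by linarith) (by linarith) ih h2
    refine Sur_equiv (finSumFinEquiv.trans (finCongr (by ring))) ?_ key
    rintro (i | i) <;> rfl

/-- adding `k` points of multiplicity `h`, emptiness -/
theorem Emp_units {ι : Type} [Finite ι] {w : ι → ℕ} {h : ℕ} {x : ℝ} {a : ℕ} (ha : 1 ≤ a)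
    (hx : Irrational x) (hE : Emp w (Sc x (x + a) h ∪ {((0, (h : ℤ)) : ℤ × ℤ)})) (k : ℕ) :
    Emp (Sum.elim w (fun _ : Fin k => h)) (Sc x (x + (a + k : ℕ)) h ∪ {((0, (h : ℤ)) : ℤ × ℤ)}) := by
  induction k with
  | zero =>
    have e1 : x + ((a + 0 : ℕ) : ℝ) = x + a := by push_cast; ring
    rw [e1]
    exact Emp_equiv (Equiv.sumEmpty ι (Fin 0)).symm (fun _ => rfl) hE
  | succ k ih =>
    have h2 : Emp (fun _ : Fin 1 => h) (Sc (x + (((a + k : ℕ) : ℤ) : ℝ)) (x + 1 + (((a + k : ℕ) : ℤ) : ℝ)) h) :=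
      Emp_shift _ (Emp_unit x h)
    have e1 : x + ((a + (k + 1) : ℕ) : ℝ) = x + 1 + (((a + k : ℕ) : ℤ) : ℝ) := by
      push_cast; ring
    have e2 : x + ((a + k : ℕ) : ℝ) = x + (((a + k : ℕ) : ℤ) : ℝ) := by
      push_cast; ring
    rw [e1]
    rw [e2] at ih
    have h0 : (0 : ℝ) < (((a + k : ℕ) : ℤ) : ℝ) := by
      have : 0 < a + k := by omega
      exact_mod_cast this
    have key := Emp_add (x := x) (y := x + (((a + k : ℕ) : ℤ) : ℝ))
      (z := x + 1 + (((a + k : ℕ) : ℤ) : ℝ)) (by linarith) (by linarith) (hx.add_intCast _) ih h2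
    refine Emp_equiv ((Equiv.sumAssoc ι (Fin k) (Fin 1)).trans
      (Equiv.sumCongr (Equiv.refl ι) finSumFinEquiv)) ?_ key
    rintro ((i | i) | i) <;> rfl

/-- adding `k` points of multiplicity `h`, independence -/
theorem Sur_units {ι : Type} [Fintype ι] {w : ι → ℕ} {h : ℕ} {x : ℝ} {a : ℕ} (ha : 1 ≤ a)
    (hx : Irrational x) (hE : Sur w (Sc x (x + a) h)) (k : ℕ) :
    Sur (Sum.elim w (fun _ : Fin k => h)) (Sc x (x + (a + k : ℕ)) h) := by
  induction k with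
  | zero =>
    have e1 : x + ((a + 0 : ℕ) : ℝ) = x + a := by push_cast; ring
    rw [e1]
    exact Sur_equiv (Equiv.sumEmpty ι (Fin 0)).symm (fun _ => rfl) hE
  | succ k ih =>
    have h2 : Sur (fun _ : Fin 1 => h) (Sc (x + (((a + k : ℕ) : ℤ) : ℝ)) (x + 1 + (((a + k : ℕ) : ℤ) : ℝ)) h) :=
      Sur_shift _ (Sur_unit hx h)
    have e1 : x + ((a + (k + 1) : ℕ) : ℝ) = x + 1 + (((a + k : ℕ) : ℤ) : ℝ) := by
      push_cast; ring
    have e2 : x + ((a + k : ℕ) : ℝ) = x + (((a + k : ℕ) : ℤ) : ℝ) := by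
      push_cast; ring
    rw [e1]
    rw [e2] at ih
    have h0 : (0 : ℝ) < (((a + k : ℕ) : ℤ) : ℝ) := by
      have : 0 < a + k := by omega
      exact_mod_cast this
    have key := Sur_add (x := x) (y := x + (((a + k : ℕ) : ℤ) : ℝ))
      (z := x + 1 + (((a + k : ℕ) : ℤ) : ℝ)) (by linarith) (by linarith) ih h2
    refine Sur_equiv ((Equiv.sumAssoc ι (Fin k) (Fin 1)).trans
      (Equiv.sumCongr (Equiv.refl ι) finSumFinEquiv)) ?_ key
    rintro ((i | i) | i) <;> rfl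

/-- from the nine sectors to the plane, emptiness -/
theorem Emp_plane9 {ι : Type} {w : ι → ℕ} {x : ℝ} {h : ℕ} (hx : Irrational x) (h0 : 0 < x) (h3 : x < 3)
    (hE : Emp w (Sc x (x + 9) h ∪ {((0, (h : ℤ)) : ℤ × ℤ)})) : Emp w (TZ (3 * h)) := by
  refine keyE ι w (3 * h) (x / 3) (by linarith) (by linarith) ?_
  refine hE.comap (-1) (-6) 0 1 (6 * h) 0 (by norm_num) ?_
  rintro ⟨i, j⟩ ⟨g1, g2, g3⟩
  simp only at g1 g2 g3
  have hd : ((3 * h : ℕ) : ℝ) = 3 * h := by push_cast; ring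
  rw [hd] at g2 g3
  have e : ((-1 * i + -6 * j + 6 * (h : ℤ), 0 * i + 1 * j + 0) : ℤ × ℤ) = (6 * (h : ℤ) - i - 6 * j, j) := by
    ext
    · simp only; ring
    · simp only; ring
  simp only
  rw [e]
  have a1 : x * ((h : ℝ) - j) ≤ ((6 * (h : ℤ) - i - 6 * j : ℤ) : ℝ) := by push_cast; linarith
  have a2 : ((6 * (h : ℤ) - i - 6 * j : ℤ) : ℝ) ≤ (x + 9) * ((h : ℝ) - j) := by push_cast; linarith
  have hs : (0 : ℝ) ≤ (h : ℝ) - j := by linarith
  rcases hs.lt_or_eq with hs | hs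
  · left
    refine ⟨g1, ?_, ?_⟩
    · refine lt_of_le_of_ne a1 fun he => hx ?_
      refine ⟨((6 * (h : ℤ) - i - 6 * j : ℤ) : ℚ) / ((h : ℚ) - j), ?_⟩
      push_cast
      rw [div_eq_iff hs.ne']
      push_cast at he
      exact he.symm
    · refine lt_of_le_of_ne a2 fun he => hx ?_
      refine ⟨((6 * (h : ℤ) - i - 6 * j : ℤ) : ℚ) / ((h : ℚ) - j) - 9, ?_⟩
      push_cast
      push_cast at he
      rw [sub_eq_iff_eq_add, div_eq_iff hs.ne']
      exact he
  · right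
    have hj : j = h := by
      have : (j : ℝ) = h := by linarith
      exact_mod_cast this
    rw [Set.mem_singleton_iff, hj]
    rw [← hs] at a1 a2
    have : ((6 * (h : ℤ) - i - 6 * j : ℤ) : ℝ) = 0 := by
      apply le_antisymm <;> linarith
    have h5 : 6 * (h : ℤ) - i - 6 * j = 0 := by exact_mod_cast this
    rw [hj] at h5
    rw [Prod.mk.injEq]
    exact ⟨h5, rfl⟩

/-- from the nine sectors to the plane, independence -/
theorem Sur_plane9 {ι : Type} [Fintype ι] {w : ι → ℕ} {x : ℝ} {h : ℕ} (hx : Irrational x) (h0 : 0 < x)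
    (h3 : x < 3) (hS : Sur w (Sc x (x + 9) h)) : Sur w (TZ (3 * h)) := by
  refine keyS ι w (3 * h) (x / 3) (by linarith) (by linarith) ?_ ?_
  · simpa using hx.div_natCast (m := 3) (by norm_num)
  refine hS.comap (-1) (-6) 0 1 (6 * h) 0 (by norm_num) ?_
  rintro ⟨t, j⟩ ⟨g1, g2, g3⟩
  simp only at g1 g2 g3
  have hd : ((3 * h : ℕ) : ℝ) = 3 * h := by push_cast; ring
  refine ⟨(6 * (h : ℤ) - t - 6 * j, j), ⟨g1, ?_, ?_⟩, ?_⟩
  · simp only
    rw [hd]
    push_cast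
    linarith
  · simp only
    rw [hd]
    push_cast
    linarith
  · ext
    · simp only; ring
    · simp only; ring

/-- the slope of the block of width `M` -/
noncomputable def KM (M : ℕ) : ℝ := (M + √((M * M + 4 * M : ℕ) : ℝ)) / 2

theorem sqM (M : ℕ) : √((M * M + 4 * M : ℕ) : ℝ) * √((M * M + 4 * M : ℕ) : ℝ) = M * M + 4 * M := by
  rw [Real.mul_self_sqrt (Nat.cast_nonneg _)]
  push_cast
  ring

theorem slpM {M : ℕ} (hM : 1 ≤ M) : Slp M 1 (KM M) ∧ (M : ℝ) < KM M ∧ KM M < M + 1 := by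
  have hMR : (1 : ℝ) ≤ M := by exact_mod_cast hM
  have h2 := sqM M
  have h1 : (M : ℝ) < √((M * M + 4 * M : ℕ) : ℝ) := by
    rw [Real.lt_sqrt (by linarith)]
    push_cast
    nlinarith
  have h3 : √((M * M + 4 * M : ℕ) : ℝ) < M + 2 := by
    rw [Real.sqrt_lt' (by linarith)]
    push_cast
    nlinarith
  have hirr : Irrational √((M * M + 4 * M : ℕ) : ℝ) := by
    have h4 : ¬ IsSquare (M * M + 4 * M : ℕ) := by
      rintro ⟨a, ha⟩
      have a1 : M + 1 < a := by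
        by_contra hcon
        push Not at hcon
        have := Nat.mul_le_mul hcon hcon
        nlinarith
      have a2 : a < M + 2 := by
        by_contra hcon
        push Not at hcon
        have := Nat.mul_le_mul hcon hcon
        nlinarith
      omega
    exact irrational_sqrt_natCast_iff.2 h4
  refine ⟨⟨hM, by norm_num, ?_, ?_, ?_⟩, ?_, ?_⟩
  · unfold KM; linarith
  · unfold KM; push_cast; push_cast at h2; linear_combination h2 / 4
  · have e : KM M = ((M / 2 : ℚ) : ℝ) + ((1 / 2 : ℚ) : ℝ) * √((M * M + 4 * M : ℕ) : ℝ) := by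
      unfold KM; push_cast; ring
    rw [e]
    exact (hirr.ratCast_mul (by norm_num)).ratCast_add _
  · unfold KM; linarith
  · unfold KM; linarith

/-- **anticanonical degrees**: emptiness or independence -/
theorem dich_anti {M r k h m : ℕ} (hM : 1 ≤ M) (hk : (r + 1) * M + k = 9) :
    Emp (Sum.elim (fun _ : Fin ((r + 1) * (M + 4)) => m) (fun _ : Fin k => h)) (TZ (3 * h)) ∨
    Sur (Sum.elim (fun _ : Fin ((r + 1) * (M + 4)) => m) (fun _ : Fin k => h)) (TZ (3 * h)) := by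
  obtain ⟨hS, hK1, hK2⟩ := slpM hM
  obtain ⟨x, hx⟩ : ∃ x : ℝ, x = KM M - M := ⟨_, rfl⟩
  have hirr : Irrational x := by
    rw [hx]
    exact hS.irr.sub_natCast M
  have hx0 : 0 < x := by rw [hx]; linarith
  have hx3 : x < 3 := by rw [hx]; linarith
  have hxM : x + M = KM M := by rw [hx]; ring
  have ha : 1 ≤ (r + 1) * M := Nat.mul_pos (Nat.succ_pos r) hM
  have h9 : x + (((r + 1) * M + k : ℕ) : ℝ) = x + 9 := by rw [hk]; push_cast; ring
  have hd : (((3 * h : ℕ) : ℝ)) / 3 = h := by push_cast; ring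
  rcases dich (M := M) hS (Pool.Agent.TH469.SX.step3 hS) m (3 * h) with hd' | hd'
  · left
    have h1 := Pool.Agent.TH864.SX.Emp_blk hS hd'
    have h2 : Emp (fun _ : Fin (M + 4) => m) (Sc x (x + M) h ∪ {((0, (h : ℤ)) : ℤ × ℤ)}) := by
      refine h1.mono ?_
      rintro p (⟨g1, g2, g3⟩ | hp)
      · refine ⟨g1, ?_, ?_⟩
        · rw [hd, ← hx]; exact g2.le
        · rw [hd, ← hxM]; exact g3.le
      · rw [Set.mem_singleton_iff] at hp
        rw [hp]
        refine ⟨by simp, ?_, ?_⟩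
        · rw [hd]; simp
        · rw [hd]; simp
    have h3 := Emp_units ha hirr (Emp_blocks hM hirr h2 r) k
    rw [h9] at h3
    exact Emp_plane9 hirr hx0 hx3 h3
  · right
    have h1 := Sur_bo hS hd'
    have h2 : Sur (fun _ : Fin (M + 4) => m) (Sc x (x + M) h) := by
      refine h1.mono ?_
      rintro p ⟨g1, g2, g3⟩
      rw [hd] at g2 g3
      exact ⟨g1, by rw [hx]; exact g2, by rw [hxM]; exact g3⟩
    have h3 := Sur_units ha hirr (Sur_blocks hM h2 r) k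
    rw [h9] at h3
    exact Sur_plane9 hirr hx0 hx3 h3

end Pool.Agent.TH978.S13
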