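import Pool.Agent.TH978.S13.Defs

/-!
# The operator `(Y - 1) ∂_Y - α - β z ∂_z`
-/

namespace Pool.Agent.TH978.S13

open Finset Pool.Agent.TH176.Nag

section J1
variable {K : Type*} [Field K]

theorem opr_apply (α β : K) (f : (ℤ × ℤ) →₀ K) (c b : ℤ) :
    opr α β f (c, b) = f (c, b) * ((b : K) - α - β * c) - f (c, b + 1) * ((b : K) + 1) := by
  classical
  unfold opr Finsupp.sum
  rw [Finsupp.finsetSum_apply]
  simp only [Finsupp.sub_apply, Finsupp.single_apply]
  rw [Finset.sum_sub_distrib]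
  congr 1
  · rw [Finset.sum_ite_eq']
    split_ifs with h
    · rfl
    · rw [Finsupp.notMem_support_iff.1 h, zero_mul]
  · have e : ∀ p ∈ f.support, (if ((p.1, p.2 - 1) : ℤ × ℤ) = (c, b) then f p * (p.2 : K) else 0) =
        if p = (c, b + 1) then f p * (p.2 : K) else 0 := by
      intro p _
      have : (((p.1, p.2 - 1) : ℤ × ℤ) = (c, b)) ↔ p = (c, b + 1) := by
        rw [Prod.ext_iff, Prod.ext_iff]
        simp only
        constructor <;> rintro ⟨h1, h2⟩ <;> constructor <;> omega
      simp only [this]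
    rw [Finset.sum_congr rfl e, Finset.sum_ite_eq']
    split_ifs with h
    · push_cast; ring
    · rw [Finsupp.notMem_support_iff.1 h, zero_mul]

/-- pairings with `opr` -/
theorem sum_opr {R : Type*} [AddCommMonoid R] (α β : K) (f : (ℤ × ℤ) →₀ K) (F : ℤ × ℤ → K → K)
    (h0 : ∀ p, F p 0 = 0) (hadd : ∀ p a b, F p (a + b) = F p a + F p b) :
    (opr α β f).sum F = f.sum fun p a => F p (a * ((p.2 : K) - α - β * (p.1 : K))) -
      F (p.1, p.2 - 1) (a * (p.2 : K)) := by
  classical
  have hsub : ∀ p a b, F p (a - b) = F p a - F p b := by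
    intro p a b
    have := hadd p (a - b) b
    rw [sub_add_cancel] at this
    rw [this, add_sub_cancel_right]
  let G : ((ℤ × ℤ) →₀ K) →+ K :=
    { toFun := fun g => g.sum F
      map_zero' := Finsupp.sum_zero_index
      map_add' := fun g g' => Finsupp.sum_add_index' h0 hadd }
  have h1 : ∀ p a, G (Finsupp.single p a) = F p a := fun p a => Finsupp.sum_single_index (h0 p)
  show G (opr α β f) = _
  unfold opr Finsupp.sum
  rw [map_sum]
  refine Finset.sum_congr rfl fun p _ => ?_
  rw [map_sub, h1, h1]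

theorem PF_shift {w : ℕ} {P : K × K → K} (hP : P ∈ PF K w) :
    (fun u : K × K => P (u.1, u.2 - 1)) ∈ PF K w := by
  have := PF_comp_aff hP 0 1 0 (-1) 0 1
  convert this using 2
  congr 2 <;> ring

/-- the operator lowers the multiplicity by one -/
theorem LM_opr {α β : K} {f : (ℤ × ℤ) →₀ K} {x y : K} (hy : y ≠ 0) {w : ℕ} (h : LM f x y (w + 1)) :
    LM (opr α β f) x y w := by
  intro P hP
  have h1 : (fun u : K × K => (-α + (-β) * u.1 + 1 * u.2) * P u - (y⁻¹ * (u.2 * P (u.1, u.2 - 1)))) ∈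
      PF K (w + 1) := by
    refine (PF K (w + 1)).sub_mem (PF_mul_aff hP (-α) (-β) 1) ?_
    exact (PF K (w + 1)).smul_mem y⁻¹ (PF_mul_snd (PF_shift hP))
  have h2 := h _ h1
  unfold pr at h2 ⊢
  rw [sum_opr (R := K) α β f (fun m c => c * P ((m.1 : K), (m.2 : K)) * (x ^ m.1 * y ^ m.2))
    (fun p => by simp) (fun p a b => by ring), ← h2]
  refine Finset.sum_congr rfl fun p _ => ?_
  simp only
  rw [zpow_sub₀ hy, zpow_one]
  push_cast
  field_simp
  ring

theorem dsc_succ (l : ℕ) (b : K) : dsc (l + 1) b = dsc l b * (b - l) := by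
  unfold dsc; rw [prod_range_succ]

theorem dsc_succ' (l : ℕ) (b : K) : dsc (l + 1) b = b * dsc l (b - 1) := by
  unfold dsc
  rw [prod_range_succ']
  rw [mul_comm]
  congr 1
  · simp
  · refine Finset.prod_congr rfl fun t _ => ?_
    push_cast; ring

/-- `b (dsc l b - dsc l (b - 1)) = l dsc l b` -/
theorem dsc_diff (l : ℕ) (b : K) : b * (dsc l b - dsc l (b - 1)) = l * dsc l b := by
  rw [mul_sub, ← dsc_succ', dsc_succ]
  ring

theorem tau_opr (α β : K) (f : (ℤ × ℤ) →₀ K) (c : ℤ) (l : ℕ) :
    tau (opr α β f) c (dsc l) = ((l : K) - α - β * c) * tau f c (dsc l) := by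
  classical
  unfold tau
  rw [sum_opr (R := K) α β f (fun p a => if p.1 = c then a * dsc l (p.2 : K) else 0)
    (fun p => by simp) (fun p a b => by split_ifs <;> ring)]
  unfold Finsupp.sum
  rw [Finset.mul_sum]
  refine Finset.sum_congr rfl fun p _ => ?_
  simp only
  by_cases h : p.1 = c
  · rw [if_pos h, if_pos h, if_pos h, h]
    have := dsc_diff l (p.2 : K)
    push_cast
    linear_combination (f p) * this
  · rw [if_neg h, if_neg h, if_neg h]; ring

theorem tau_eq_sum (f : (ℤ × ℤ) →₀ K) (c : ℤ) (Q : K → K) :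
    tau f c Q = ∑ p ∈ f.support.filter (fun p => p.1 = c), f p * Q (p.2 : K) := by
  unfold tau Finsupp.sum
  rw [Finset.sum_filter]

/-- a polynomial in `Y` in a column with vanishing Taylor coefficients at `Y = 1` is zero -/
theorem eq_zero_of_tau_shift [CharZero K] {f : (ℤ × ℤ) →₀ K} {c s : ℤ}
    (hpos : ∀ b : ℤ, b + s < 0 → f (c, b) = 0)
    (h : ∀ l : ℕ, tau f c (fun b => dsc l (b + s)) = 0) (b : ℤ) : f (c, b) = 0 := by
  classical
  by_contra hne
  -- the largest exponent
  set B := (f.support.filter fun p => p.1 = c).image Prod.snd with hB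
  have hbB : b ∈ B := by
    rw [hB, Finset.mem_image]
    exact ⟨(c, b), by rw [Finset.mem_filter]; exact ⟨Finsupp.mem_support_iff.2 hne, rfl⟩, rfl⟩
  have hBne : B.Nonempty := ⟨b, hbB⟩
  set b1 := B.max' hBne with hb1
  have hb1B : b1 ∈ B := B.max'_mem hBne
  obtain ⟨p, hp, hpb⟩ := Finset.mem_image.1 hb1B
  rw [Finset.mem_filter] at hp
  have hp' : p = (c, b1) := Prod.ext hp.2 hpb
  have hf1 : f (c, b1) ≠ 0 := by rw [← hp']; exact Finsupp.mem_support_iff.1 hp.1
  have hb10 : 0 ≤ b1 + s := by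
    by_contra hneg
    exact hf1 (hpos b1 (by omega))
  obtain ⟨l, hl⟩ := Int.eq_ofNat_of_zero_le hb10
  have h1 := h l
  rw [tau_eq_sum, Finset.sum_eq_single (c, b1)] at h1
  · rcases mul_eq_zero.1 h1 with h2 | h2
    · exact hf1 h2
    · simp only at h2
      have hcast : ((b1 : ℤ) : K) + (s : K) = (l : K) := by
        have : ((b1 + s : ℤ) : K) = ((l : ℤ) : K) := by rw [hl]
        push_cast at this
        exact this
      rw [hcast] at h2
      unfold dsc at h2
      rw [Finset.prod_eq_zero_iff] at h2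
      obtain ⟨t, ht, h3⟩ := h2
      rw [mem_range] at ht
      have h4 : ((l : ℕ) : K) = (t : K) := by
        rw [sub_eq_zero] at h3
        exact h3
      have := Nat.cast_injective h4
      omega
  · intro q hq hne'
    rw [Finset.mem_filter] at hq
    have hq0 : 0 ≤ q.2 + s := by
      by_contra hneg
      apply Finsupp.mem_support_iff.1 hq.1
      have : q = (c, q.2) := Prod.ext hq.2 rfl
      rw [this]
      exact hpos _ (by omega)
    have hq1 : q.2 ≤ b1 := B.le_max' _ (Finset.mem_image.2 ⟨q, Finset.mem_filter.2 hq, rfl⟩)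
    have hq2 : q.2 ≠ b1 := fun h5 => hne' (Prod.ext hq.2 h5)
    obtain ⟨t, ht⟩ := Int.eq_ofNat_of_zero_le hq0
    have hcast : ((q.2 : ℤ) : K) + (s : K) = (t : K) := by
      have : ((q.2 + s : ℤ) : K) = ((t : ℤ) : K) := by rw [ht]
      push_cast at this
      exact this
    have : dsc l (((q.2 : ℤ) : K) + (s : K)) = 0 := by
      rw [hcast]
      unfold dsc
      rw [Finset.prod_eq_zero_iff]
      refine ⟨t, by rw [mem_range]; omega, by simp⟩
    rw [this, mul_zero]
  · intro hno
    exfalso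
    apply hno
    rw [Finset.mem_filter]
    exact ⟨Finsupp.mem_support_iff.2 hf1, rfl⟩

/-- a polynomial in `Y` in each column with vanishing Taylor coefficients at `Y = 1` is zero -/
theorem eq_zero_of_tau [CharZero K] {f : (ℤ × ℤ) →₀ K} {c : ℤ} (hpos : ∀ b : ℤ, b < 0 → f (c, b) = 0)
    (h : ∀ l : ℕ, tau f c (dsc l) = 0) (b : ℤ) : f (c, b) = 0 := by
  refine eq_zero_of_tau_shift (s := 0) (fun b hb => hpos b (by omega)) (fun l => ?_) b
  have := h l
  convert this using 2
  funext b
  simp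

/-- `dsc l b = 0` for natural numbers `b < l` -/
theorem dsc_eq_zero {l : ℕ} {b : ℤ} (h0 : 0 ≤ b) (h1 : b < l) : dsc l ((b : ℤ) : K) = 0 := by
  obtain ⟨t, ht⟩ := Int.eq_ofNat_of_zero_le h0
  unfold dsc
  rw [Finset.prod_eq_zero_iff]
  refine ⟨t, by rw [mem_range]; omega, ?_⟩
  rw [ht]; simp

/-- a functional which vanishes at all exponents of a column -/
theorem tau_eq_zero {f : (ℤ × ℤ) →₀ K} {c : ℤ} {Q : K → K}
    (h : ∀ b : ℤ, f (c, b) ≠ 0 → Q (b : K) = 0) : tau f c Q = 0 := by
  rw [tau_eq_sum]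
  refine Finset.sum_eq_zero fun p hp => ?_
  rw [Finset.mem_filter] at hp
  have hp' : p = (c, p.2) := Prod.ext hp.2 rfl
  rw [h p.2 (by rw [← hp']; exact Finsupp.mem_support_iff.1 hp.1), mul_zero]

theorem tau_add_right (f : (ℤ × ℤ) →₀ K) (c : ℤ) (Q R : K → K) :
    tau f c (fun b => Q b + R b) = tau f c Q + tau f c R := by
  simp only [tau_eq_sum, ← Finset.sum_add_distrib]
  exact Finset.sum_congr rfl fun p _ => by ring

theorem tau_smul_right (f : (ℤ × ℤ) →₀ K) (c : ℤ) (Q : K → K) (a : K) :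
    tau f c (fun b => a * Q b) = a * tau f c Q := by
  simp only [tau_eq_sum, Finset.mul_sum]
  exact Finset.sum_congr rfl fun p _ => by ring

theorem tau_sub_smul (f g : (ℤ × ℤ) →₀ K) (a : K) (c : ℤ) (Q : K → K) :
    tau (f - a • g) c Q = tau f c Q - a * tau g c Q := by
  classical
  unfold tau
  rw [Finsupp.sum_sub_index (by intro p a b; split_ifs <;> ring),
    Finsupp.sum_smul_index (by intro p; simp), Finsupp.mul_sum]
  congr 1
  refine Finsupp.sum_congr fun p _ => ?_
  split_ifs <;> ring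

theorem dsc_step (k : ℕ) (b : K) : dsc (k + 1) (b + 1) = dsc (k + 1) b + (k + 1) * dsc k b := by
  rw [dsc_succ' k (b + 1), add_sub_cancel_right, dsc_succ]
  ring

/-- one step of the shift -/
theorem tau_shift_one {f : (ℤ × ℤ) →₀ K} {c : ℤ} {κ : ℕ} (a : K)
    (h : ∀ k < κ, tau f c (fun b => dsc k (b + (a + 1))) = 0) :
    ∀ k < κ, tau f c (fun b => dsc k (b + a)) = 0 := by
  intro k
  induction k with
  | zero =>
    intro hk
    have := h 0 hk
    simpa [dsc] using this
  | succ k ih =>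
    intro hk
    have h1 := h (k + 1) hk
    have h2 := ih (by omega)
    have e : (fun b : K => dsc (k + 1) (b + (a + 1))) =
        fun b => dsc (k + 1) (b + a) + ((k : K) + 1) * dsc k (b + a) := by
      funext b
      rw [← add_assoc, dsc_step]
    rw [e, tau_add_right f c (fun b => dsc (k + 1) (b + a)) (fun b => ((k : K) + 1) * dsc k (b + a)),
      tau_smul_right f c (fun b => dsc k (b + a)), h2, mul_zero, add_zero] at h1
    exact h1

/-- shifting the Taylor functionals -/
theorem tau_shift {f : (ℤ × ℤ) →₀ K} {c : ℤ} {κ : ℕ} (n : ℕ)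
    (h : ∀ k < κ, tau f c (fun b => dsc k (b + (n : K))) = 0) :
    ∀ k < κ, tau f c (dsc k) = 0 := by
  induction n with
  | zero =>
    intro k hk
    have := h k hk
    simpa using this
  | succ n ih =>
    refine ih (tau_shift_one (n : K) ?_)
    intro k hk
    have := h k hk
    push_cast at this
    exact this

end J1

end Pool.Agent.TH978.S13
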