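import Pool.Agent.TH978.S13.AntiMain

/-!
# Anticanonical degrees: `r (M + 2)` points of multiplicity `m`
-/

set_option autoImplicit false

namespace Pool.Agent.TH978.S13

open Finset Pool.Agent.TH176.Nag Pool.Agent.TH603.Sur Pool.Agent.TH603.Cut Pool.Agent.TH641.NW
  Pool.Agent.TH469.SX Pool.Agent.H932R3
open Pool.Agent.TH864.SX (Fb Fa Slp)

/-- from one block to the plane -/
theorem plane_of_block {M r k h b m q : ℕ} {K : ℝ} (hM : 1 ≤ M) (hS : Slp M q K) (hK1 : (M : ℝ) < K)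
    (hK2 : K < M + 1) (hk : (r + 1) * M + k = 9)
    (hdd : Emp (fun _ : Fin b => m) (Fa q K (3 * h)) ∨ Sur (fun _ : Fin b => m) (Fb q K (3 * h))) :
    Emp (Sum.elim (fun _ : Fin ((r + 1) * b) => m) (fun _ : Fin k => h)) (TZ (3 * h)) ∨
    Sur (Sum.elim (fun _ : Fin ((r + 1) * b) => m) (fun _ : Fin k => h)) (TZ (3 * h)) := by
  obtain ⟨x, hx⟩ : ∃ x : ℝ, x = K - M := ⟨_, rfl⟩
  have hirr : Irrational x := by
    rw [hx]
    exact hS.irr.sub_natCast M
  have hx0 : 0 < x := by rw [hx]; linarith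
  have hx3 : x < 3 := by rw [hx]; linarith
  have hxM : x + M = K := by rw [hx]; ring
  have ha : 1 ≤ (r + 1) * M := Nat.mul_pos (Nat.succ_pos r) hM
  have h9 : x + (((r + 1) * M + k : ℕ) : ℝ) = x + 9 := by rw [hk]; push_cast; ring
  have hd : (((3 * h : ℕ) : ℝ)) / 3 = h := by push_cast; ring
  rcases hdd with hd' | hd'
  · left
    have h1 := Pool.Agent.TH864.SX.Emp_blk hS hd'
    have h2 : Emp (fun _ : Fin b => m) (Sc x (x + M) h ∪ {((0, (h : ℤ)) : ℤ × ℤ)}) := by
      refine h1.mono ?_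
      rintro p (⟨g1, g2, g3⟩ | hp)
      · refine ⟨g1, ?_, ?_⟩
        · rw [hd, ← hx]; exact g2.le
        · rw [hd, ← hxM]; exact g3.le
      · rw [Set.mem_singleton_iff] at hp
        rw [hp]
        refine ⟨by simp, ?_, ?_⟩
        · rw [hd]; simp
        · rw [hd]; simp
    have h3 := Emp_units ha hirr (Emp_blocks hM hirr h2 r) k
    rw [h9] at h3
    exact Emp_plane9 hirr hx0 hx3 h3
  · right
    have h1 := Sur_bo hS hd'
    have h2 : Sur (fun _ : Fin b => m) (Sc x (x + M) h) := by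
      refine h1.mono ?_
      rintro p ⟨g1, g2, g3⟩
      rw [hd] at g2 g3
      exact ⟨g1, by rw [hx]; exact g2, by rw [hxM]; exact g3⟩
    have h3 := Sur_units ha hirr (Sur_blocks hM h2 r) k
    rw [h9] at h3
    exact Sur_plane9 hirr hx0 hx3 h3

/-- the slope of the second block of width `M` -/
noncomputable def KN (M : ℕ) : ℝ := (M + √((M * M + 2 * M : ℕ) : ℝ)) / 2

theorem sqN (M : ℕ) : √((M * M + 2 * M : ℕ) : ℝ) * √((M * M + 2 * M : ℕ) : ℝ) = M * M + 2 * M := by
  rw [Real.mul_self_sqrt (Nat.cast_nonneg _)]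
  push_cast
  ring

theorem slpN {M : ℕ} (hM : 1 ≤ M) : Slp M 2 (KN M) ∧ (M : ℝ) < KN M ∧ KN M < M + 1 := by
  have hMR : (1 : ℝ) ≤ M := by exact_mod_cast hM
  have h2 := sqN M
  have h1 : (M : ℝ) < √((M * M + 2 * M : ℕ) : ℝ) := by
    rw [Real.lt_sqrt (by linarith)]
    push_cast
    nlinarith
  have h3 : √((M * M + 2 * M : ℕ) : ℝ) < M + 1 := by
    rw [Real.sqrt_lt' (by linarith)]
    push_cast
    nlinarith
  have hirr : Irrational √((M * M + 2 * M : ℕ) : ℝ) := by
    have h4 : ¬ IsSquare (M * M + 2 * M : ℕ) := by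
      rintro ⟨a, ha⟩
      have a1 : M < a := by
        by_contra hcon
        push Not at hcon
        have := Nat.mul_le_mul hcon hcon
        nlinarith
      have a2 : a < M + 1 := by
        by_contra hcon
        push Not at hcon
        have := Nat.mul_le_mul hcon hcon
        nlinarith
      omega
    exact irrational_sqrt_natCast_iff.2 h4
  refine ⟨⟨hM, by norm_num, ?_, ?_, ?_⟩, ?_, ?_⟩
  · unfold KN; linarith
  · unfold KN; push_cast; push_cast at h2; linear_combination h2 / 2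
  · have e : KN M = ((M / 2 : ℚ) : ℝ) + ((1 / 2 : ℚ) : ℝ) * √((M * M + 2 * M : ℕ) : ℝ) := by
      unfold KN; push_cast; ring
    rw [e]
    exact (hirr.ratCast_mul (by norm_num)).ratCast_add _
  · unfold KN; linarith
  · unfold KN; linarith

/-- emptiness or independence in a block of `M + 2` points -/
theorem dichN {M h m : ℕ} (hM : 1 ≤ M)
    (hG : M * (h * h) < (M + 2) * (m * m) ∨
      (M + 2) * ((2 * m + 1) * (2 * m + 1)) ≤ M * ((2 * h + 1) * (2 * h + 1))) :
    Emp (fun _ : Fin (M + 2) => m) (Fa 2 (KN M) (3 * h)) ∨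
    Sur (fun _ : Fin (M + 2) => m) (Fb 2 (KN M) (3 * h)) := by
  obtain ⟨hS, hK1, hK2⟩ := slpN hM
  have hK0 := hS.K0
  have hMR : (1 : ℝ) ≤ M := by exact_mod_cast hM
  have hK : ((2 : ℕ) : ℝ) * (KN M * (KN M - (M : ℕ))) = (M : ℕ) := hS.eq
  have hpq : 1 * 2 = 2 := rfl
  have hcard : Fintype.card (Fin (M + 2)) = M + 2 * 1 := by simp
  have hKK : (KN M + 1) ^ 2 * M = (M + 2) * KN M ^ 2 := by
    push_cast at hK
    linear_combination -hK
  obtain ⟨A, hA⟩ : ∃ A : ℝ, A = KN M * (3 * h : ℕ) / 3 := ⟨_, rfl⟩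
  have hAh : A = KN M * h := by rw [hA]; push_cast; ring
  have hA0 : 0 ≤ A := by rw [hAh]; positivity
  rw [Fb_eq, ← hA]
  rcases hG with hG | hG
  · left
    refine (Emp_apex hpq hK0 hK hcard hA0 ?_).mono ?_
    · by_contra hcon
      push Not at hcon
      push_cast at hcon
      rw [hAh] at hcon
      have h1 : (m : ℝ) * (KN M + 1) * ((m : ℝ) * (KN M + 1)) ≤ KN M * h * (KN M * h) :=
        mul_self_le_mul_self (by positivity) hcon
      have h2 : ((M : ℝ) + 2) * KN M ^ 2 * (m * m) ≤ M * (KN M ^ 2 * (h * h)) := by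
        have h3 := mul_le_mul_of_nonneg_left h1 (show (0 : ℝ) ≤ M by linarith)
        have h4 : (M : ℝ) * ((m : ℝ) * (KN M + 1) * ((m : ℝ) * (KN M + 1))) =
            (M + 2) * KN M ^ 2 * (m * m) := by
          linear_combination (m * m : ℝ) * hKK
        rw [h4] at h3
        linarith
      have h5 : (M : ℝ) * (h * h) < (M + 2) * (m * m) := by exact_mod_cast hG
      have h6 : 0 < KN M ^ 2 := by positivity
      nlinarith [mul_lt_mul_of_pos_left h5 h6]
    · rw [hA]
      exact Fa_sub 2 (KN M) (3 * h)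
  · right
    refine Sur_blk hpq hK0 hK hcard ?_
    by_contra hcon
    push Not at hcon
    push_cast at hcon
    rw [hAh] at hcon
    have h0 : KN M * (2 * h + 1) < (KN M + 1) * (2 * m + 1) := by linarith
    have h1 : KN M * (2 * h + 1) * (KN M * (2 * h + 1)) <
        (KN M + 1) * (2 * m + 1) * ((KN M + 1) * (2 * m + 1)) :=
      mul_self_lt_mul_self (by positivity) h0
    have h3 := mul_lt_mul_of_pos_left h1 (show (0 : ℝ) < M by linarith)
    have h4 : (M : ℝ) * ((KN M + 1) * (2 * m + 1) * ((KN M + 1) * (2 * m + 1))) =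
        (M + 2) * KN M ^ 2 * ((2 * m + 1) * (2 * m + 1)) := by
      linear_combination ((2 * m + 1) * (2 * m + 1) : ℝ) * hKK
    rw [h4] at h3
    have h5 : ((M : ℝ) + 2) * ((2 * m + 1) * (2 * m + 1)) ≤ M * ((2 * h + 1) * (2 * h + 1)) := by
      exact_mod_cast hG
    have h6 : 0 < KN M ^ 2 := by positivity
    nlinarith [mul_le_mul_of_nonneg_left h5 h6.le]

/-- `k` points of multiplicity `h`, then `r (M + 2)` points of multiplicity `m` -/
theorem dich_anti2 {M r k h m : ℕ} (hM : 1 ≤ M) (hr : 1 ≤ r) (hk : k + r * M = 9)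
    (hG : M * (h * h) < (M + 2) * (m * m) ∨
      (M + 2) * ((2 * m + 1) * (2 * m + 1)) ≤ M * ((2 * h + 1) * (2 * h + 1))) :
    Emp (fun i : Fin (k + r * (M + 2)) => if (i : ℕ) < k then h else m) (TZ (3 * h)) ∨
    Sur (fun i : Fin (k + r * (M + 2)) => if (i : ℕ) < k then h else m) (TZ (3 * h)) := by
  obtain ⟨r, rfl⟩ : ∃ r', r = r' + 1 := ⟨r - 1, by omega⟩
  have hw : ∀ i : Fin ((r + 1) * (M + 2)) ⊕ Fin k,
      Sum.elim (fun _ : Fin ((r + 1) * (M + 2)) => m) (fun _ : Fin k => h) i =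
      (fun i : Fin (k + (r + 1) * (M + 2)) => if (i : ℕ) < k then h else m)
        (((Equiv.sumComm _ _).trans finSumFinEquiv) i) := by
    rintro (i | i)
    · simp
    · simp
  obtain ⟨hS, hK1, hK2⟩ := slpN hM
  rcases plane_of_block (b := M + 2) (m := m) (r := r) (k := k) (h := h) hM hS hK1 hK2
    (by rw [add_comm]; exact hk) (dichN hM hG) with h1 | h1
  · exact Or.inl (Emp_equiv _ hw h1)
  · exact Or.inr (Sur_equiv _ hw h1)

theorem choose_two_mul (n : ℕ) : 8 * Nat.choose (n + 1) 2 + 1 = (2 * n + 1) * (2 * n + 1) := by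
  have h := Nat.triangle_succ n
  have h2 : Nat.choose (n + 1) 2 = (n + 1) * n / 2 := by
    rw [Nat.choose_two_right, Nat.add_sub_cancel]
  have h3 : Even ((n + 1) * n) := by
    have := Nat.even_mul_succ_self n
    rwa [mul_comm] at this
  obtain ⟨c, hc⟩ := h3
  have h4 : (n + 1) * n / 2 = c := by omega
  rw [h2, h4]
  nlinarith

/-- **anticanonical degrees, `r (M + 2)` points**: the expected dimension -/
theorem expDim_anti2 {M r k : ℕ} (hM : 1 ≤ M) (hr : 1 ≤ r) (hk : k + r * M = 9) (h m : ℕ)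
    (hG : M * h ^ 2 < (M + 2) * m ^ 2 ∨
      (M + 2) * Nat.choose (m + 1) 2 < M * Nat.choose (h + 1) 2) :
    ∃ F : MvPolynomial (Fin (k + r * (M + 2)) × Fin 2) ℚ, F ≠ 0 ∧
      ∀ {L : Type} [Field L] [CharZero L] (P : Fin (k + r * (M + 2)) → Fin 2 → L),
        MvPolynomial.aeval (fun ij : Fin (k + r * (M + 2)) × Fin 2 => P ij.1 ij.2) F ≠ 0 →
        ExpDim L (fun i => if (i : ℕ) < k then h else m) P (3 * h) := by
  have hG' : M * (h * h) < (M + 2) * (m * m) ∨
      (M + 2) * ((2 * m + 1) * (2 * m + 1)) ≤ M * ((2 * h + 1) * (2 * h + 1)) := by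
    rcases hG with hG | hG
    · left
      rw [pow_two, pow_two] at hG
      exact hG
    · right
      rw [← choose_two_mul, ← choose_two_mul]
      nlinarith
  obtain ⟨F, hF, hF'⟩ := expDim_two (w := fun i : Fin (k + r * (M + 2)) => if (i : ℕ) < k then h else m)
    (A := fun d => d = 3 * h ∧ Emp (fun i : Fin (k + r * (M + 2)) => if (i : ℕ) < k then h else m) (TZ d))
    (B := fun d => d = 3 * h ∧ Sur (fun i : Fin (k + r * (M + 2)) => if (i : ℕ) < k then h else m) (TZ d))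
    (3 * h) (fun d hd => hd.1.le) (fun d hd => hd.2) (fun d hd => hd.2)
  refine ⟨F, hF, fun {L} _ _ P hP => hF' P hP (3 * h) ?_⟩
  rcases dich_anti2 hM hr hk hG' with h1 | h1
  · exact Or.inl ⟨rfl, h1⟩
  · exact Or.inr ⟨rfl, h1⟩

end Pool.Agent.TH978.S13
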