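import Pool.Agent.TH978.S13.Anti2

/-!
# Anticanonical degrees: blocks with arbitrary weights
-/

set_option autoImplicit false

namespace Pool.Agent.TH978.S13

open Finset Pool.Agent.TH176.Nag Pool.Agent.TH603.Sur Pool.Agent.TH603.Cut Pool.Agent.TH641.NW
  Pool.Agent.TH469.SX Pool.Agent.H932R3
open Pool.Agent.TH864.SX (Fb Fa Slp)

/-- one more copy -/
def stepEquiv (ι : Type) (r : ℕ) : (Fin (r + 1) × ι) ⊕ ι ≃ Fin (r + 1 + 1) × ι :=
  (Equiv.sumCongr (Equiv.refl _) (Equiv.uniqueProd ι (Fin 1)).symm).trans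
    ((Equiv.sumProdDistrib (Fin (r + 1)) (Fin 1) ι).symm.trans
      (Equiv.prodCongr finSumFinEquiv (Equiv.refl _)))

theorem stepEquiv_snd {ι : Type} (w : ι → ℕ) (r : ℕ) (i : (Fin (r + 1) × ι) ⊕ ι) :
    Sum.elim (fun p : Fin (r + 1) × ι => w p.2) w i = w (stepEquiv ι r i).2 := by
  rcases i with i | i <;> rfl

/-- the first copy -/
def zeroEquiv (ι : Type) : ι ≃ Fin (0 + 1) × ι where
  toFun i := (0, i)
  invFun p := p.2
  left_inv _ := rfl
  right_inv p := by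
    obtain ⟨a, b⟩ := p
    have : a = 0 := by omega
    rw [this]

/-- `r + 1` copies of a block, emptiness -/
theorem Emp_copies {ι : Type} [Finite ι] {w : ι → ℕ} {h M : ℕ} {x : ℝ} (hM : 1 ≤ M) (hx : Irrational x)
    (hE : Emp w (Sc x (x + M) h ∪ {((0, (h : ℤ)) : ℤ × ℤ)})) (r : ℕ) :
    Emp (fun p : Fin (r + 1) × ι => w p.2)
      (Sc x (x + ((r + 1) * M : ℕ)) h ∪ {((0, (h : ℤ)) : ℤ × ℤ)}) := by
  have hMR : (1 : ℝ) ≤ M := by exact_mod_cast hM
  induction r with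
  | zero =>
    have e1 : x + (((0 + 1) * M : ℕ) : ℝ) = x + M := by push_cast; ring
    rw [e1]
    exact Emp_equiv (zeroEquiv ι) (fun _ => rfl) hE
  | succ r ih =>
    have h2 : Emp w (Sc (x + (((r + 1) * M : ℕ) : ℤ)) (x + M + (((r + 1) * M : ℕ) : ℤ)) h) :=
      Emp_shift _ (hE.mono Set.subset_union_left)
    have e1 : x + (((r + 1 + 1) * M : ℕ) : ℝ) = x + M + ((((r + 1) * M : ℕ) : ℤ) : ℝ) := by
      push_cast; ring
    have e2 : x + (((r + 1) * M : ℕ) : ℝ) = x + ((((r + 1) * M : ℕ) : ℤ) : ℝ) := by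
      push_cast; ring
    rw [e1]
    rw [e2] at ih
    have h0 : (0 : ℝ) < ((((r + 1) * M : ℕ) : ℤ) : ℝ) := by
      have : 0 < (r + 1) * M := by positivity
      exact_mod_cast this
    have key := Emp_add (x := x) (y := x + ((((r + 1) * M : ℕ) : ℤ) : ℝ))
      (z := x + M + ((((r + 1) * M : ℕ) : ℤ) : ℝ)) (by linarith) (by linarith) (hx.add_intCast _) ih h2
    exact Emp_equiv (stepEquiv ι r) (stepEquiv_snd w r) key

/-- `r + 1` copies of a block, independence -/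
theorem Sur_copies {ι : Type} [Fintype ι] {w : ι → ℕ} {h M : ℕ} {x : ℝ} (hM : 1 ≤ M)
    (hE : Sur w (Sc x (x + M) h)) (r : ℕ) :
    Sur (fun p : Fin (r + 1) × ι => w p.2) (Sc x (x + ((r + 1) * M : ℕ)) h) := by
  have hMR : (1 : ℝ) ≤ M := by exact_mod_cast hM
  induction r with
  | zero =>
    have e1 : x + (((0 + 1) * M : ℕ) : ℝ) = x + M := by push_cast; ring
    rw [e1]
    exact Sur_equiv (zeroEquiv ι) (fun _ => rfl) hE
  | succ r ih =>
    have h2 : Sur w (Sc (x + (((r + 1) * M : ℕ) : ℤ)) (x + M + (((r + 1) * M : ℕ) : ℤ)) h) :=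
      Sur_shift _ hE
    have e1 : x + (((r + 1 + 1) * M : ℕ) : ℝ) = x + M + ((((r + 1) * M : ℕ) : ℤ) : ℝ) := by
      push_cast; ring
    have e2 : x + (((r + 1) * M : ℕ) : ℝ) = x + ((((r + 1) * M : ℕ) : ℤ) : ℝ) := by
      push_cast; ring
    rw [e1]
    rw [e2] at ih
    have h0 : (0 : ℝ) < ((((r + 1) * M : ℕ) : ℤ) : ℝ) := by
      have : 0 < (r + 1) * M := by positivity
      exact_mod_cast this
    have key := Sur_add (x := x) (y := x + ((((r + 1) * M : ℕ) : ℤ) : ℝ))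
      (z := x + M + ((((r + 1) * M : ℕ) : ℤ) : ℝ)) (by linarith) (by linarith) ih h2
    exact Sur_equiv (stepEquiv ι r) (stepEquiv_snd w r) key

/-- **from one block with arbitrary weights to the plane** -/
theorem plane_of_block_w {ι : Type} [Fintype ι] {M r k h q : ℕ} {K : ℝ} (w : ι → ℕ) (hM : 1 ≤ M)
    (hS : Slp M q K) (hK1 : (M : ℝ) < K) (hK2 : K < M + 1) (hk : (r + 1) * M + k = 9)
    (hdd : Emp w (Fa q K (3 * h)) ∨ Sur w (Fb q K (3 * h))) :
    Emp (Sum.elim (fun p : Fin (r + 1) × ι => w p.2) (fun _ : Fin k => h)) (TZ (3 * h)) ∨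
    Sur (Sum.elim (fun p : Fin (r + 1) × ι => w p.2) (fun _ : Fin k => h)) (TZ (3 * h)) := by
  obtain ⟨x, hx⟩ : ∃ x : ℝ, x = K - M := ⟨_, rfl⟩
  have hirr : Irrational x := by
    rw [hx]
    exact hS.irr.sub_natCast M
  have hx0 : 0 < x := by rw [hx]; linarith
  have hx3 : x < 3 := by rw [hx]; linarith
  have hxM : x + M = K := by rw [hx]; ring
  have ha : 1 ≤ (r + 1) * M := Nat.mul_pos (Nat.succ_pos r) hM
  have h9 : x + (((r + 1) * M + k : ℕ) : ℝ) = x + 9 := by rw [hk]; push_cast; ring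
  have hd : (((3 * h : ℕ) : ℝ)) / 3 = h := by push_cast; ring
  rcases hdd with hd' | hd'
  · left
    have h1 := Pool.Agent.TH864.SX.Emp_blk hS hd'
    have h2 : Emp w (Sc x (x + M) h ∪ {((0, (h : ℤ)) : ℤ × ℤ)}) := by
      refine h1.mono ?_
      rintro p (⟨g1, g2, g3⟩ | hp)
      · refine ⟨g1, ?_, ?_⟩
        · rw [hd, ← hx]; exact g2.le
        · rw [hd, ← hxM]; exact g3.le
      · rw [Set.mem_singleton_iff] at hp
        rw [hp]
        refine ⟨by simp, ?_, ?_⟩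
        · rw [hd]; simp
        · rw [hd]; simp
    have h3 := Emp_units ha hirr (Emp_copies hM hirr h2 r) k
    rw [h9] at h3
    exact Emp_plane9 hirr hx0 hx3 h3
  · right
    have h1 := Sur_bo hS hd'
    have h2 : Sur w (Sc x (x + M) h) := by
      refine h1.mono ?_
      rintro p ⟨g1, g2, g3⟩
      rw [hd] at g2 g3
      exact ⟨g1, by rw [hx]; exact g2, by rw [hxM]; exact g3⟩
    have h3 := Sur_units ha hirr (Sur_copies hM h2 r) k
    rw [h9] at h3
    exact Sur_plane9 hirr hx0 hx3 h3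

end Pool.Agent.TH978.S13
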