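import Pool.Agent.TH978.S13.Anti

/-!
# The expected dimension in anticanonical degrees
-/

set_option autoImplicit false

namespace Pool.Agent.TH978.S13

open Finset Pool.Agent.TH176.Nag Pool.Agent.TH603.Sur Pool.Agent.TH603.Cut Pool.Agent.TH641.NW
  Pool.Agent.TH469.SX Pool.Agent.H932R3

/-- `k` points of multiplicity `h`, then `r (M + 4)` points of multiplicity `m` -/
theorem dich_anti' {M r k h m : ℕ} (hM : 1 ≤ M) (hr : 1 ≤ r) (hk : k + r * M = 9) :
    Emp (fun i : Fin (k + r * (M + 4)) => if (i : ℕ) < k then h else m) (TZ (3 * h)) ∨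
    Sur (fun i : Fin (k + r * (M + 4)) => if (i : ℕ) < k then h else m) (TZ (3 * h)) := by
  obtain ⟨r, rfl⟩ : ∃ r', r = r' + 1 := ⟨r - 1, by omega⟩
  have hw : ∀ i : Fin ((r + 1) * (M + 4)) ⊕ Fin k,
      Sum.elim (fun _ : Fin ((r + 1) * (M + 4)) => m) (fun _ : Fin k => h) i =
      (fun i : Fin (k + (r + 1) * (M + 4)) => if (i : ℕ) < k then h else m)
        (((Equiv.sumComm _ _).trans finSumFinEquiv) i) := by
    rintro (i | i)
    · simp
    · simp
  rcases dich_anti (M := M) (r := r) (k := k) (h := h) (m := m) hM (by rw [add_comm]; exact hk) with h1 | h1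
  · exact Or.inl (Emp_equiv _ hw h1)
  · exact Or.inr (Sur_equiv _ hw h1)

/-- **anticanonical degrees**: the expected dimension -/
theorem expDim_anti {M r k : ℕ} (hM : 1 ≤ M) (hr : 1 ≤ r) (hk : k + r * M = 9) (h m : ℕ) :
    ∃ F : MvPolynomial (Fin (k + r * (M + 4)) × Fin 2) ℚ, F ≠ 0 ∧
      ∀ {L : Type} [Field L] [CharZero L] (P : Fin (k + r * (M + 4)) → Fin 2 → L),
        MvPolynomial.aeval (fun ij : Fin (k + r * (M + 4)) × Fin 2 => P ij.1 ij.2) F ≠ 0 →
        ExpDim L (fun i => if (i : ℕ) < k then h else m) P (3 * h) := by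
  obtain ⟨F, hF, hF'⟩ := expDim_two (w := fun i : Fin (k + r * (M + 4)) => if (i : ℕ) < k then h else m)
    (A := fun d => d = 3 * h ∧ Emp (fun i : Fin (k + r * (M + 4)) => if (i : ℕ) < k then h else m) (TZ d))
    (B := fun d => d = 3 * h ∧ Sur (fun i : Fin (k + r * (M + 4)) => if (i : ℕ) < k then h else m) (TZ d))
    (3 * h) (fun d hd => hd.1.le) (fun d hd => hd.2) (fun d hd => hd.2)
  refine ⟨F, hF, fun {L} _ _ P hP => hF' P hP (3 * h) ?_⟩
  rcases dich_anti' (h := h) (m := m) hM hr hk with h1 | h1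
  · exact Or.inl ⟨rfl, h1⟩
  · exact Or.inr ⟨rfl, h1⟩

end Pool.Agent.TH978.S13
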