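import Pool.Agent.TH978.S13.Opr

/-!
# Uniform SHGH for 13 points, STEP 3: the apex
-/

set_option autoImplicit false

namespace Pool.Agent.TH978.S13

open Finset Pool.Agent.TH176.Nag

section lists

variable {K : Type*} [Field K]

/-- a list of operators -/
noncomputable def oprs (L : List (K × K)) (f : (ℤ × ℤ) →₀ K) : (ℤ × ℤ) →₀ K :=
  L.foldr (fun a g => opr a.1 a.2 g) f

theorem oprs_nil (f : (ℤ × ℤ) →₀ K) : oprs [] f = f := rfl

theorem oprs_cons (a : K × K) (L : List (K × K)) (f : (ℤ × ℤ) →₀ K) :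
    oprs (a :: L) f = opr a.1 a.2 (oprs L f) := rfl

theorem LM_oprs {x y : K} (hy : y ≠ 0) (L : List (K × K)) : ∀ {f : (ℤ × ℤ) →₀ K} {w : ℕ},
    LM f x y (w + L.length) → LM (oprs L f) x y w := by
  induction L with
  | nil => intro f w h; exact h
  | cons a L ih =>
    intro f w h
    rw [oprs_cons]
    apply LM_opr hy
    apply ih
    rw [List.length_cons] at h
    rw [show w + 1 + L.length = w + (L.length + 1) by ring]
    exact h

theorem tau_oprs (L : List (K × K)) (f : (ℤ × ℤ) →₀ K) (c : ℤ) (l : ℕ) :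
    tau (oprs L f) c (dsc l) = (L.map fun a => (l : K) - a.1 - a.2 * c).prod * tau f c (dsc l) := by
  induction L with
  | nil => simp [oprs_nil]
  | cons a L ih => rw [oprs_cons, tau_opr, ih, List.map_cons, List.prod_cons, mul_assoc]

theorem opr_sub_smul (α β : K) (f g : (ℤ × ℤ) →₀ K) (a : K) :
    opr α β (f - a • g) = opr α β f - a • opr α β g := by
  ext ⟨c, b⟩
  simp only [opr_apply, Finsupp.sub_apply, Finsupp.smul_apply, smul_eq_mul]
  ring

theorem oprs_sub_smul (L : List (K × K)) (f g : (ℤ × ℤ) →₀ K) (a : K) :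
    oprs L (f - a • g) = oprs L f - a • oprs L g := by
  induction L with
  | nil => rfl
  | cons a L ih => rw [oprs_cons, oprs_cons, oprs_cons, ih, opr_sub_smul]

theorem oprs_pos (L : List (K × K)) {f : (ℤ × ℤ) →₀ K} {c : ℤ} (hc : ∀ b : ℤ, b < 0 → f (c, b) = 0) :
    ∀ b : ℤ, b < 0 → oprs L f (c, b) = 0 := by
  induction L with
  | nil => exact hc
  | cons a L ih =>
    intro b hb
    rw [oprs_cons, opr_apply, ih b hb, zero_mul, zero_sub, neg_eq_zero]
    by_cases h : b + 1 < 0
    · rw [ih _ h, zero_mul]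
    · have : b = -1 := by omega
      rw [this]
      simp

theorem oprs_col (L : List (K × K)) {f : (ℤ × ℤ) →₀ K} {c : ℤ} (hc : ∀ b : ℤ, f (c, b) = 0) :
    ∀ b : ℤ, oprs L f (c, b) = 0 := by
  induction L with
  | nil => exact hc
  | cons a L ih =>
    intro b
    rw [oprs_cons, opr_apply, ih b, ih (b + 1)]
    simp

theorem oprs_low [CharZero K] (L : List (K × K)) {f : (ℤ × ℤ) →₀ K} {r : ℕ} (hr : 1 ≤ r)
    (h0 : ∀ b : ℤ, b < -(r : ℤ) → f (0, b) = 0) (h1 : f (0, -(r : ℤ)) ≠ 0) :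
    (∀ b : ℤ, b < -((r : ℤ) + L.length) → oprs L f (0, b) = 0) ∧
      oprs L f (0, -((r : ℤ) + L.length)) ≠ 0 := by
  induction L with
  | nil =>
    simp only [List.length_nil, Nat.cast_zero, add_zero]
    exact ⟨h0, h1⟩
  | cons a L ih =>
    rw [oprs_cons]
    constructor
    · intro b hb
      rw [List.length_cons] at hb
      push_cast at hb
      rw [opr_apply, ih.1 b (by omega), ih.1 (b + 1) (by omega)]
      simp
    · rw [opr_apply, ih.1 _ (by rw [List.length_cons]; push_cast; omega), zero_mul, zero_sub,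
        neg_ne_zero]
      have e : -((r : ℤ) + ((a :: L).length : ℕ)) + 1 = -((r : ℤ) + L.length) := by
        rw [List.length_cons]; push_cast; ring
      rw [e]
      refine mul_ne_zero ih.2 ?_
      have : ((-((r : ℤ) + ((a :: L).length : ℕ)) : ℤ) : K) + 1 = ((-((r : ℤ) + L.length) : ℤ) : K) := by
        rw [← e]; push_cast; ring
      rw [this, Int.cast_ne_zero]
      omega

end lists

/-- shifting the second coordinate -/
def up : (ℤ × ℤ) ↪ (ℤ × ℤ) := ⟨fun p => (p.1, p.2 + 1), by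
  intro p q h
  simp only [Prod.mk.injEq, add_left_inj] at h
  exact Prod.ext h.1 h.2⟩

theorem up_apply (c b : ℤ) : up (c, b) = (c, b + 1) := rfl

/-- the test polynomials `(1 - Y) ^ κ / Y` -/
theorem exists_psi (κ : ℕ) : ∃ ψ : (ℤ × ℤ) →₀ ℚ,
    (∀ p ∈ ψ.support, p.1 = 0 ∧ -1 ≤ p.2 ∧ p.2 < κ) ∧ ψ (0, -1) = 1 ∧
      ∀ k < κ, tau ψ 0 (fun b => dsc k (b + 1)) = 0 := by
  induction κ with
  | zero =>
    refine ⟨Finsupp.single (0, -1) 1, ?_, by simp, by intro k hk; omega⟩
    intro p hp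
    rw [Finsupp.mem_support_iff, Finsupp.single_apply] at hp
    split_ifs at hp with h
    · rw [← h]; simp
    · exact absurd rfl hp
  | succ κ ih =>
    obtain ⟨ψ, h1, h2, h3⟩ := ih
    set S : (ℤ × ℤ) →₀ ℚ := ψ.embDomain up with hS
    have hSa : ∀ c b : ℤ, S (c, b) = ψ (c, b - 1) := by
      intro c b
      have := Finsupp.embDomain_apply_self (f := up) (v := ψ) (a := (c, b - 1))
      rw [up_apply, sub_add_cancel] at this
      exact this
    have hSt : ∀ Q : ℚ → ℚ, tau S 0 Q = tau ψ 0 (fun b => Q (b + 1)) := by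
      intro Q
      unfold tau
      rw [hS, Finsupp.sum_embDomain]
      refine Finsupp.sum_congr fun p _ => ?_
      obtain ⟨c, b⟩ := p
      rw [up_apply]
      push_cast
      rfl
    refine ⟨ψ - (1 : ℚ) • S, ?_, ?_, ?_⟩
    · intro p hp
      obtain ⟨c, b⟩ := p
      rw [Finsupp.mem_support_iff, Finsupp.sub_apply, Finsupp.smul_apply, hSa] at hp
      by_cases hc : ψ (c, b) = 0
      · have : ψ (c, b - 1) ≠ 0 := by
          intro h
          apply hp
          rw [hc, h]; simp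
        have := h1 _ (Finsupp.mem_support_iff.2 this)
        simp only at this ⊢
        push_cast
        omega
      · have := h1 _ (Finsupp.mem_support_iff.2 hc)
        simp only at this ⊢
        push_cast
        omega
    · rw [Finsupp.sub_apply, Finsupp.smul_apply, hSa, h2]
      have : ψ (0, -1 - 1) = 0 := by
        by_contra h
        have := h1 _ (Finsupp.mem_support_iff.2 h)
        simp only at this
        omega
      rw [this]; simp
    · intro k hk
      rw [tau_sub_smul, hSt, one_mul]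
      cases k with
      | zero =>
        have e : (fun b : ℚ => (dsc 0 (b + 1 + 1) : ℚ)) = fun b => dsc 0 (b + 1) := by
          funext b; simp [dsc]
        rw [e, sub_self]
      | succ k =>
        have e : (fun b : ℚ => (dsc (k + 1) (b + 1 + 1) : ℚ)) =
            fun b => dsc (k + 1) (b + 1) + ((k : ℚ) + 1) * dsc k (b + 1) := by
          funext b
          rw [dsc_step]
        rw [e, tau_add_right ψ 0 (fun b => dsc (k + 1) (b + 1)) (fun b => ((k : ℚ) + 1) * dsc k (b + 1)),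
          tau_smul_right ψ 0 (fun b => dsc k (b + 1)), h3 k (by omega), mul_zero, add_zero, sub_self]

/-- a nonzero Laurent polynomial in `Y` does not vanish at some rational number `y ≠ 0, 1` -/
theorem exists_y {P : (ℤ × ℤ) →₀ ℚ} (hP : ∀ p ∈ P.support, p.1 = 0) (h0 : P ≠ 0) :
    ∃ y : ℚ, y ≠ 0 ∧ y ≠ 1 ∧ pr P 1 y (fun _ => 1) ≠ 0 := by
  classical
  by_contra hcon
  push Not at hcon
  have hinj : Set.InjOn (fun b : ℤ => ((0 : ℤ), b)) ((fun b : ℤ => ((0 : ℤ), b)) ⁻¹' ↑P.support) := by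
    intro a _ b _ h
    exact (Prod.mk.inj h).2
  have hbij : Set.BijOn (fun b : ℤ => ((0 : ℤ), b)) ((fun b : ℤ => ((0 : ℤ), b)) ⁻¹' ↑P.support)
      ↑P.support := by
    refine ⟨fun a ha => ha, hinj, ?_⟩
    intro p hp
    have hp0 := hP p hp
    have e : ((0 : ℤ), p.2) = p := Prod.ext hp0.symm rfl
    exact ⟨p.2, by
      show ((0 : ℤ), p.2) ∈ (↑P.support : Set (ℤ × ℤ))
      rw [e]; exact hp, e⟩
  set h : ℤ →₀ ℚ := Finsupp.comapDomain (fun b : ℤ => ((0 : ℤ), b)) P hbij.injOn with hh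
  have hha : ∀ b, h b = P (0, b) := fun b => rfl
  set N : ℕ := P.support.sup fun p => p.2.natAbs with hN
  have hNle : ∀ b, h b ≠ 0 → b.natAbs ≤ N := by
    intro b hb
    rw [hha] at hb
    exact Finset.le_sup (f := fun p : ℤ × ℤ => p.2.natAbs) (Finsupp.mem_support_iff.2 hb)
  have hz : h = 0 := by
    refine Pool.Agent.TH819.NagA.one_var (ι := Fin (2 * N + 1)) (fun i => ((i : ℕ) : ℚ) + 2) ?_ ?_
      (fun _ => 1) h (-(N : ℝ)) N ?_ ?_ ?_
    · intro i j hij
      simp only [add_left_inj, Nat.cast_inj] at hij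
      exact Fin.ext hij
    · intro i
      positivity
    · intro a ha
      have h1 := hNle a (Finsupp.mem_support_iff.1 ha)
      have h2 : -(N : ℤ) ≤ a ∧ a ≤ (N : ℤ) := by omega
      exact ⟨by exact_mod_cast h2.1, by exact_mod_cast h2.2⟩
    · rw [Finset.sum_const, Finset.card_univ, Fintype.card_fin, nsmul_eq_mul]
      push_cast
      linarith
    · intro i c hc
      have hc0 : c = 0 := by omega
      subst hc0
      have hy := hcon (((i : ℕ) : ℚ) + 2) (by positivity) (by
        have : (0 : ℚ) ≤ ((i : ℕ) : ℚ) := Nat.cast_nonneg _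
        intro h; linarith)
      unfold pr at hy
      have h3 := Finsupp.sum_comapDomain (fun b : ℤ => ((0 : ℤ), b)) P
        (fun m c => c * 1 * ((1 : ℚ) ^ m.1 * (((i : ℕ) : ℚ) + 2) ^ m.2)) hbij
      rw [hy] at h3
      rw [← h3]
      refine Finsupp.sum_congr fun b _ => ?_
      simp
  apply h0
  ext ⟨c, b⟩
  by_cases hc : c = 0
  · subst hc
    rw [← hha, hz]; rfl
  · by_contra hne
    exact hc (hP _ (Finsupp.mem_support_iff.2 hne))

/-- the apex coefficient vanishes -/
theorem apex {m : ℕ} {L : List (ℚ × ℚ)} (hlen : L.length + 1 = m) {ψ : (ℤ × ℤ) →₀ ℚ}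
    (h1 : ∀ p ∈ ψ.support, p.1 = 0 ∧ -1 ≤ p.2) (h2 : ψ (0, -1) = 1) :
    ∃ y0 : ℚ, y0 ≠ 0 ∧ y0 ≠ 1 ∧ ∀ g : (ℤ × ℤ) →₀ ℚ, LM g 1 y0 m →
      (∀ p ∈ g.support, 0 ≤ p.2 ∨ p = (0, -1)) →
      (∀ (c : ℤ) (k : ℕ), tau (g - g (0, -1) • ψ) c (dsc k) ≠ 0 →
        ∃ a ∈ L, (k : ℚ) - a.1 - a.2 * c = 0) → g (0, -1) = 0 := by
  have hψ0 : ∀ p : ℤ × ℤ, (p.1 ≠ 0 ∨ p.2 < -1) → ψ p = 0 := by
    intro p hp
    by_contra hne
    have := h1 p (Finsupp.mem_support_iff.2 hne)
    omega
  have hP0 : oprs L ψ ≠ 0 := by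
    intro h
    have := (oprs_low L (f := ψ) (r := 1) le_rfl (fun b hb => hψ0 _ (Or.inr (by simpa using hb)))
      (by rw [Nat.cast_one, h2]; exact one_ne_zero)).2
    rw [h] at this
    exact this rfl
  have hPs : ∀ p ∈ (oprs L ψ).support, p.1 = 0 := by
    intro p hp
    by_contra hne
    apply Finsupp.mem_support_iff.1 hp
    have : p = (p.1, p.2) := rfl
    rw [this]
    exact oprs_col L (fun b => hψ0 _ (Or.inl hne)) _
  obtain ⟨y, hy0, hy1, hy⟩ := exists_y hPs hP0
  refine ⟨y, hy0, hy1, fun g hg hs hk => ?_⟩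
  have hf0 : oprs L (g - g (0, -1) • ψ) = 0 := by
    have hpos : ∀ (c b : ℤ), b < 0 → (g - g (0, -1) • ψ) (c, b) = 0 := by
      intro c b hb
      rw [Finsupp.sub_apply, Finsupp.smul_apply, smul_eq_mul]
      by_cases h : (c, b) = (0, -1)
      · rw [h, h2]; ring
      · have hgz : g (c, b) = 0 := by
          by_contra hne
          rcases hs _ (Finsupp.mem_support_iff.2 hne) with h3 | h3
          · simp only at h3; omega
          · exact h h3
        have hψz : ψ (c, b) = 0 := by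
          apply hψ0
          by_contra hne
          push Not at hne
          apply h
          simp only at hne
          exact Prod.ext hne.1 (by simp only; omega)
        rw [hgz, hψz]; ring
    ext ⟨c, b⟩
    rw [Finsupp.zero_apply]
    refine eq_zero_of_tau (oprs_pos L (hpos c)) (fun l => ?_) b
    rw [tau_oprs]
    by_cases ht : tau (g - g (0, -1) • ψ) c (dsc l) = 0
    · rw [ht, mul_zero]
    · obtain ⟨a, ha, ha0⟩ := hk c l ht
      rw [List.prod_eq_zero (List.mem_map.2 ⟨a, ha, ha0⟩), zero_mul]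
  rw [oprs_sub_smul, sub_eq_zero] at hf0
  have hL : LM (oprs L g) 1 y 1 := LM_oprs hy0 L (by rw [add_comm, hlen]; exact hg)
  have h3 := hL _ (mem_PF_mono (K := ℚ) (a := 0) (b := 0) (w := 1) (by omega))
  have h4 : (fun u : ℚ × ℚ => u.1 ^ 0 * u.2 ^ 0) = fun _ => (1 : ℚ) := by
    funext u; simp
  rw [h4, hf0] at h3
  have h5 : pr (g (0, -1) • oprs L ψ) 1 y (fun _ => 1) = g (0, -1) * pr (oprs L ψ) 1 y (fun _ => 1) := by
    unfold pr
    rw [Finsupp.sum_smul_index (by intro p; simp), Finsupp.mul_sum]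
    refine Finsupp.sum_congr fun p _ => ?_
    ring
  rw [h5] at h3
  rcases mul_eq_zero.1 h3 with h6 | h6
  · exact h6
  · exact absurd h6 hy

end Pool.Agent.TH978.S13
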